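import Pool.Agent.N616.NH.Main
import Pool.Agent.N616.NH.PL
import Pool.Agent.N616.NH.N1
import Pool.Agent.N616.NH.N2
import Pool.Agent.N616.NH.N3
import Pool.Agent.N616.NH.CO
import Pool.Agent.N616.NH.RX1
import Pool.Agent.N616.NH.RX2

/-!
# Non-tame valuations of NIP fields are definable

Let `K` be a field (a pure field, in the language of rings) which is NIP, or `NIP_n` for some `n`, or
NTP2, and let `O` be a valuation ring of `K`, of any rank and not assumed to be henselian, with value
group `Γ` and residue field `k`. Suppose that `O` is not tame (`NotTame`): for some `d ≥ 2` the value
group `Γ` is not `d`-divisible and `k` has a separable extension of degree `d`, or for some prime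
number `ℓ` the value group is not cyclic modulo `ℓ`. Then a nontrivial coarsening of `O` is definable
with parameters in the language of rings.

The ring `O` itself is definable under the condition `NT'`:

* there are `d ≥ 2` such that `k` has a separable extension of degree `d` and an element of `Γ` which
  is not divisible by `d`, but congruent to arbitrarily small positive elements modulo `d`, or
* there are a prime number `ℓ` and two elements of `Γ` which are independent modulo `ℓ`, and congruent
  to arbitrarily small positive elements modulo `ℓ`.

In particular this holds for the valuation rings of all valuations with real values which are not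
tame, and more generally for all places of `K` with a real valuation (a valuation ring of `K` and a
real valuation of its residue field) which are not tame in the sense of the starting result
`UnramifiedNorms`.

Proof. Let `K'` be elementarily equivalent to `K`, let `O` be a valuation ring of `K'` with `NT'` and
let `e` be a nonzero element of its maximal ideal. Choose `δ` with `v e ≤ v δ < 1` which is a value as
in the definition of `NT'`. The valuation ring `{x | v (δ ^ n x) ≤ 1 for some n}` and the valuation
ring `{z | v (δ z ^ n) ≤ 1 for all n}` of its residue field give a place of `K'` with values in a
complete field `F` of rank one, where the valuation of `O` still lives. The norm from the unramified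
extension of degree `d`, or from the extension by an `ℓ`-th root or a root of an Artin-Schreier
polynomial, is not surjective onto a finite extension of `F`. If there were `N` pairwise incomparable
valuation rings with `NT'` in `K'`, these places would be pairwise incomparable, against the starting
result `FewBadPlaces`. Two valuation rings with `NT'` and the same witnesses are equal or
incomparable. So there are fewer than `N` such expansions of `K'` by a valuation ring with the
first-order properties of `O`, and Kueker's theorem (starting library `Pool/Agent/R492/DV`, `DW`)
shows that `O` is definable. If `O` is only not tame, and `t` is an element whose value is not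
divisible by `d`, then we pass to the largest convex subgroup of `Γ` which does not meet the coset of
`t` modulo `d`.

The pieces were formalised by helper199 (the place `PL`), helper55 (`N1`, unramified norms), helper364
(`N2`, norms from roots), helper247 (`N3`, norms from Artin-Schreier extensions), helper216 (`BND`),
helper227 (`DEF1`), helper832 (`DEF2`), helper87 (`RX1`), helper344 (`RX2`) and helper616.
-/

set_option autoImplicit false

namespace Pool.Agent.Results.MP_3554b5_lc.NonTameDefinable

open Pool.Agent.W882.Nip3 Pool.Agent.N616.NH Pool.Agent.Results.MP_3554b5_lc.UnramifiedNorms

/-- Let `K` be a field which is NIP (the hypothesis of `S14569`), or `NIP_n` for some `n`, or `NTP2`.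
Every valuation ring of `K` which is not tame (up to some `D`) has a nontrivial coarsening which is
definable with parameters in the language of rings; if it is non-tame with witnesses congruent to
arbitrarily small values (`NT'`) then it is itself definable, in particular the valuation ring of every
place of `K` with a real valuation which is not tame up to some `D`. -/
theorem result (K : Type) [Field K] [FirstOrder.Ring.CompatibleRing K]
    (hK : NIPField K ∨ (∃ n, NIPnField n K) ∨ NTP2Field K) :
    (∀ (D : ℕ) (O : ValuationSubring K), NotTame D O →
      ∃ A : ValuationSubring K, O ≤ A ∧ A ≠ ⊤ ∧ NT' D A ∧ Dfb A) ∧
    (∀ (D : ℕ) (O : ValuationSubring K), NT' D O → Dfb O) ∧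
    ∀ (D : ℕ) (P : ValuedPlace K), ¬ P.TameUpTo D → Dfb (vring P) := by
  have hB := BND' PL N1 N2 N3
  refine ⟨fun D O hO => ?_, fun _ _ hO => dfb_of_nt' hB K hK hO,
    fun D P hP => dfb_of_nt' hB K hK (vp' K P D hP)⟩
  obtain ⟨A, hA, hNT⟩ := CO RX1 RX2 K D O hO
  exact ⟨A, hA, (ne_top_of_nt' hNT).1, hNT, dfb_of_nt' hB K hK hNT⟩

end Pool.Agent.Results.MP_3554b5_lc.NonTameDefinable
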