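import Pool.Agent.N616.NH.Main
import Pool.Agent.N616.NH.PL
import Pool.Agent.N616.NH.N1
import Pool.Agent.N616.NH.N2
import Pool.Agent.N616.NH.N3
import Pool.Agent.N616.NH.CO
import Pool.Agent.N616.NH.RX1
import Pool.Agent.N616.NH.RX2

/-!
# The Shelah conjecture for NIP fields of positive characteristic with a non-tame valuation

Let `K` be a field of characteristic `p > 0` which is NIP, or `NIP_n` for some `n`. Suppose that `K`
has a valuation ring `O`, of any rank, which is not tame: for some `d ≥ 2` the value group is not
`d`-divisible and the residue field has a separable extension of degree `d`, or for some prime number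
`ℓ` the value group is not cyclic modulo `ℓ`. Then a nontrivial coarsening of `O` is henselian, and
definable with parameters in the language of rings. So the conclusion of the Shelah conjecture
(`S14569`), with a definable henselian valuation, holds for every NIP (or `NIP_n`) field of positive
characteristic which has a valuation which is not tame. In other words, in a counterexample of
positive characteristic all valuations are tame.

If `O` is non-tame with witnesses congruent to arbitrarily small values (`NT'`, see the result
`NonTameDefinable`), in particular if it is given by a place of `K` with a real valuation which is not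
tame, then `O` itself is definable and henselian; any two valuation rings of this kind are comparable.

Proof. The definability is the result `NonTameDefinable`. Definable valuation rings on NIP fields of
positive characteristic are henselian and pairwise comparable by a theorem of Johnson, which is proved
here also for `NIP_n` fields (Chernikov and Hempel): let `R` be the integral closure of `O` in a finite
extension `L`, or the intersection of two valuation rings, `J` its Jacobson radical, `e` a nontrivial
idempotent modulo `J`. `L` is closed under Artin-Schreier extensions (Kaplan, Scanlon, Wagner;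
Hempel), so `W = {y ^ p - y | y ∈ J}` has finite index in `J`. Let `λ : J → 𝔽_p` be additive with
`λ W = 0` and `λ (e ^ p - e) ≠ 0`. The residue fields of `R` are infinite, so there is `r` in `R` all
of whose nontrivial polynomial expressions of degree less than `N` are units; then
`x ↦ (λ (r ^ k x))_k` is a surjection from `J` to `𝔽_p ^ N`, which gives an `n`-independence pattern.

The pieces were formalised by helper199 (the place `PL`), helper55 (`N1`), helper364 (`N2`), helper247
(`N3`), helper216 (`BND`), helper227 (`DEF1`), helper832 (`DEF2`), helper87 (`RX1`), helper344 (`RX2`),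
helper614 (`KSW`), helper861 (`DFA`), helper49 (`DFB`), helper519 (`NIPL`), helper814 (`FIN`),
helper556 (`HEN`), helper147 (`JOH`), helper455 (`DJ`) and helper616.
-/

set_option autoImplicit false

namespace Pool.Agent.Results.MP_3554b5_lc.NonTameHenselian

open Pool.Agent.W882.Nip3 Pool.Agent.N616.NH Pool.Agent.Results.MP_3554b5_lc.UnramifiedNorms

/-- Let `K` be a field of characteristic `p > 0` which is NIP (the hypothesis of `S14569`), or `NIP_n`
for some `n`. Every valuation ring of `K` which is not tame (up to some `D`) has a nontrivial
coarsening which is henselian, and definable with parameters in the language of rings. If it is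
non-tame with witnesses congruent to arbitrarily small values (`NT'`) then it is itself definable and
henselian, in particular the valuation ring of every place of `K` with a real valuation which is not
tame up to some `D`. Any two valuation rings with `NT'` are comparable. -/
theorem result (K : Type) [Field K] [FirstOrder.Ring.CompatibleRing K] (p : ℕ) (hp : p.Prime)
    [CharP K p] (hK : NIPField K ∨ ∃ n, NIPnField n K) :
    (∀ (D : ℕ) (O : ValuationSubring K), NotTame D O →
      ∃ A : ValuationSubring K, O ≤ A ∧ A ≠ ⊤ ∧ NT' D A ∧ Dfb A ∧ HenselianLocalRing A) ∧
    (∀ (D : ℕ) (O : ValuationSubring K), NT' D O → O ≠ ⊤ ∧ Dfb O ∧ HenselianLocalRing O) ∧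
    (∀ (D : ℕ) (P : ValuedPlace K), ¬ P.TameUpTo D →
      vring P ≠ ⊤ ∧ Dfb (vring P) ∧ HenselianLocalRing (vring P)) ∧
    ∀ (D D' : ℕ) (O O' : ValuationSubring K), NT' D O → NT' D' O' → O ≤ O' ∨ O' ≤ O := by
  have hB := BND' PL N1 N2 N3
  have : Fact p.Prime := ⟨hp⟩
  obtain ⟨n, hn⟩ : ∃ n, NIPnField n K := by
    rcases hK with h | h
    · exact ⟨1, nip_one h⟩
    · exact h
  have hD : ∀ (D : ℕ) (O : ValuationSubring K), NT' D O → Dfb O := fun _ _ hO =>
    dfb_of_nt' hB K (Or.inr (Or.inl ⟨n, hn⟩)) hO
  have h1 : ∀ (D : ℕ) (O : ValuationSubring K), NT' D O → O ≠ ⊤ ∧ Dfb O ∧ HenselianLocalRing O :=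
    fun D O hO => ⟨(ne_top_of_nt' hO).1, hD D O hO,
      NP_.hp_n K p (ne_top_of_nt' hO).2 n hn O (hD D O hO)⟩
  refine ⟨fun D O hO => ?_, h1, fun D P hP => h1 D _ (vp' K P D hP), fun D D' O O' hO hO' =>
    NP_.comp_n K p (ne_top_of_nt' hO).2 n hn O O' (hD D O hO) (hD D' O' hO')⟩
  obtain ⟨A, hA, hNT⟩ := CO RX1 RX2 K D O hO
  exact ⟨A, hA, (h1 D A hNT).1, hNT, (h1 D A hNT).2⟩

end Pool.Agent.Results.MP_3554b5_lc.NonTameHenselian
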