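import Pool.Agent.N616.NV.Abs
import Pool.Agent.N616.NV.TK1
import Pool.Agent.N616.NV.TK
import Pool.Agent.N616.NV.FO
import Pool.Agent.N616.NV.ET
import Pool.Agent.N616.NV.BP
import Pool.Agent.N616.NV.PO
import Pool.Agent.N616.NV.PB
import Pool.Agent.N616.NV.PAT
import Pool.Agent.N616.NV.IDE
import Pool.Agent.N616.NV.VD
import Pool.Agent.N616.NV.JM
import Pool.Agent.N616.NV.HT
import Pool.Agent.N616.NV.OP
import Pool.Agent.N616.NV.OF

/-!
# Places of NIP fields with completions of dimension greater than one

Let `K` be a field (a pure field, in the language of rings) which is NIP, or `NIP_n` for some `n`, or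
NTP2.

(1) Let `P` be a place of `K` with values in a complete nonarchimedean field `F` of rank one, for
instance the completion of `K` at a real valuation, and suppose that `F` has dimension greater than
one: some norm map `L → M` is not surjective, where `M` is a finite separable extension of `F` and `L`
is a finite separable extension of `M`. Then the topology of `P` is definable: there is a subset of
`K`, definable with parameters in the language of rings, which contains a neighbourhood of zero and
is bounded.

(2) For every ordering of `K` there is a definable subset of `K` between `[-1/2, 1/2]` and `(-2, 2)`.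

(3) If `K` has characteristic `p > 0` and is NIP or `NIP_n`, then the valuation ring of every place as
in (1) is henselian. So the Shelah conjecture holds for every NIP field of positive characteristic
which has a place with a completion of dimension greater than one.

(4) In particular, if `K` is NIP or `NIP_n` of positive characteristic, then every nontrivial absolute
value of `K` is henselian, or the completion of `K` has dimension at most one.

Proof. Let `O` be the ring of `P` and `δ` small and not in the kernel of `P`. If the topology were not
definable then a variant of Kueker's theorem (by compactness and Robinson's joint consistency theorem,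
starting library `Pool/Agent/R492/DV`) would give, for every `N`, a field `K'` elementarily equivalent
to `K` with `N` valuation rings `O_i` and elements `δ_i` which have the first-order properties of `O`
and `δ`, and elements `x_ij` in `δ_i O_i` with `x_ij⁻¹` in `δ_j O_j`. The places of `K'` with real
values given by `O_i` at the scale `δ_i` are then pairwise incomparable. They have dimension greater
than one since the norm from a separable algebra over the complete field is not surjective (the
separable algebra and a bound for the distance to the norms are given by elements of `K'`). This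
contradicts the starting result `FewBadPlaces`. For (3) Johnson's proof that definable valuation rings
on NIP fields of characteristic `p` are henselian is carried out with the definable neighbourhood
only: let `R` be the integral closure of `O` in a finite extension `L`, `J` its Jacobson radical and
`W = {y ^ p - y | y ∈ J}`. If `O` is not henselian, then `R` has an idempotent modulo `J`, and it can
be chosen idempotent modulo `a R`, for every power `a` of `δ`. So there is an additive map
`λ : J → 𝔽_p` with `λ W = 0` which is not zero on `a R`, and the maps `x ↦ (λ (r ^ k x))_k` from `a R`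
to `𝔽_p ^ N` are surjective for suitable `r`. On `a R` the set `W` is definable from any definable
bounded neighbourhood of zero in `L`. This gives an `n`-independence pattern.

The pieces were formalised by helper457 (`TK1`), helper344 (`TK`), helper306 (`FO`), helper400 (`ET`),
helper771 (`BP`), helper82 (`PO`), helper97 (`PB`), helper618 (`PAT`), helper300 (`IDE`), helper701
(`VD`), helper747 (`JM`), helper395 (`HT`), helper368 (`OP`), helper607 (`OF`) and helper616; the
place `PL` by helper199, and the pieces of `NonTameHenselian` by helpers 49, 556, 519, 614, 814, 861.
-/

set_option autoImplicit false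

namespace Pool.Agent.Results.MP_3554b5_lc.PlacesOfHigherDimension

open Pool.Agent.W882.Nip3 Pool.Agent.N616.NH Pool.Agent.N616.NV

/-- Let `K` be a field which is NIP (the hypothesis of `S14569`), or `NIP_n` for some `n`, or NTP2.

(1) For every place `P` of `K` with values in a complete field with a nonarchimedean absolute value,
of dimension greater than one, there is a subset of `K`, definable with parameters in the language of
rings, which contains all `x` with `‖P.res x‖ ≤ ε` and whose elements satisfy `‖P.res x‖ ≤ 1 / ε`, for
some `ε > 0`.

(2) For every ordering of `K` there is a definable set between `[-1/2, 1/2]` and `(-2, 2)`.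

If `K` has characteristic `p > 0` and is NIP or `NIP_n`, then

(3) for every place `P` of `K` with values in a complete field of dimension greater than one the ring
of all `x` with `‖P.res x‖ ≤ 1` is a nontrivial henselian valuation ring;

(4) every nontrivial absolute value of `K` is henselian (the elements of absolute value at most one
form a henselian valuation ring), or the completion of `K` has dimension at most one. -/
theorem result (K : Type) [Field K] [FirstOrder.Ring.CompatibleRing K]
    (hK : NIPField K ∨ (∃ n, NIPnField n K) ∨ NTP2Field K) :
    (∀ (P : Place K) (D : ℕ), (∀ a b : P.F, ‖a + b‖ ≤ max ‖a‖ ‖b‖) → ¬ DimLeOneUpTo P.F D →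
      ∃ (U : Set K) (ε : ℝ), DfS U ∧ 0 < ε ∧
        (∀ (x : K) (h : x ∈ P.O), ‖P.res ⟨x, h⟩‖ ≤ ε → x ∈ U) ∧
        ∀ x ∈ U, ∃ h : x ∈ P.O, ‖P.res ⟨x, h⟩‖ ≤ 1 / ε) ∧
    (∀ [LinearOrder K] [IsStrictOrderedRing K],
      ∃ U : Set K, DfS U ∧ (∀ x, |x| ≤ 1 / 2 → x ∈ U) ∧ ∀ x ∈ U, |x| < 2) ∧
    ∀ p : ℕ, p.Prime → CharP K p → (NIPField K ∨ ∃ n, NIPnField n K) →
      (∀ (P : Place K) (D : ℕ), ¬ DimLeOneUpTo P.F D →
        ∃ O : ValuationSubring K, (∀ x : K, x ∈ O ↔ ∃ h : x ∈ P.O, ‖P.res ⟨x, h⟩‖ ≤ 1) ∧
          O ≠ ⊤ ∧ HenselianLocalRing O) ∧
      ∀ v : AbsoluteValue K ℝ, v.IsNontrivial →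
        (∃ O : ValuationSubring K, (∀ x : K, x ∈ O ↔ v x ≤ 1) ∧ HenselianLocalRing O) ∨
        ∀ D : ℕ, DimLeOneUpTo v.Completion D := by
  have hTK : S_TK := TK TK1
  have hBP : S_BP := BP ET
  have hHT : S_HT := HT PAT IDE VD JM
  refine ⟨fun P D hP hD => place_def hTK FO hBP PB PO K hK P hP D hD,
    ord_def hTK OP OF K hK, fun p hp _ hN => ?_⟩
  obtain ⟨n, hn⟩ : ∃ n, NIPnField n K := by
    rcases hN with h | h
    · exact ⟨1, nip_one h⟩
    · exact h
  refine ⟨fun P D hD => place_hens hTK FO hBP PB PO hHT K p hp n hn P D hD, fun v hv => ?_⟩
  by_contra hcon
  push Not at hcon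
  obtain ⟨hcon, D, hD⟩ := hcon
  obtain ⟨O, hO, -, hh⟩ := place_hens hTK FO hBP PB PO hHT K p hp n hn (plOf v hv) D hD
  refine hcon O (fun x => ?_) hh
  rw [hO]
  constructor
  · rintro ⟨h, h1⟩
    rwa [norm_plOf v hv x h] at h1
  · intro h1
    have hx : x ∈ (plOf v hv).O := trivial
    exact ⟨hx, (norm_plOf v hv x hx).le.trans h1⟩

end Pool.Agent.Results.MP_3554b5_lc.PlacesOfHigherDimension
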