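import Pool.Agent.N616.NH.Main3
import Pool.Agent.N616.NH.PL
import Pool.Agent.N616.NH.N1
import Pool.Agent.N616.NH.N2
import Pool.Agent.N616.NH.N3

/-!
# Non-tame valuations of NIP fields with positive residue characteristic

Let `K` be a field (a pure field, in the language of rings) which is NIP, or `NIP_n` for some `n`, and
let `O` be a valuation ring of `K` with a residue field `k` of characteristic `p > 0`. Suppose that
`O` is non-tame (`NT'`, see the result `NonTameDefinable`; `O` is not assumed to be henselian or
definable, and has arbitrary rank), or that `O` is definable. Then `k` is closed under Artin-Schreier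
extensions, and algebraically closed if it is algebraic over the prime field, or `k` is finite and `O`
is finitely ramified: there is `N` such that `p` divides `t ^ N` for all `t` in the maximal ideal.

In particular, if `K` is an algebraic extension of the field of rational numbers then every valuation
of `K` with real values is tame, or has a finite residue field and finite ramification, that is, the
completion is a finite extension of `ℚ_p`.

Proof. `O` is definable by the result `NonTameDefinable`. Let `a` be an element of `O` such that
`y ^ p - y - a` is not in the maximal ideal `m` for all `y`. Consider the relation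
`u * x - (y ^ p - y) ∈ m` for some `y`. If `k` is infinite, then by the theorem of Kaplan, Scanlon and
Wagner (in the explicit form of `Pool/Agent/N616/NH/KSW.lean`) there are `u` and `b_0, …, b_(N-1)` in
`O` such that `u ^ i * b_j` is of the form `y ^ p - y` modulo `m` for `i ≠ j`, and of the form
`y ^ p - y + a` for `i = j`; this gives an `n`-independence pattern. If `O` is not finitely ramified,
then the ultrapower of `(K, O)` has a coarsening with an infinite residue field of characteristic `p`.
The same argument, with `u` and `b_j` in this coarsening, gives an `n`-independence pattern in the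
ultrapower, hence in `K`. If `k` is infinite, algebraic over the prime field and not algebraically
closed, then there is a prime number `ℓ ≠ p` such that in the residue field `κ` of an extension of the
valuation to `K (ζ_ℓ)` not all elements are `ℓ`-th powers, and the relation that `x + u` is an `ℓ`-th
power in `κ` has `n`-independence patterns by Weil's bound for character sums (landed library
`Pool/Agent/H435R3/Weil`).

Pieces by helper614 (`KSW`), helper814 (`KUM`, `FIN`), helper196 (`FFP`), helper622 (`RFA`), helper490
(`QAL`), helper861 (`DFA`), helper49 (`DFB`), helper519 (`NIPL`), helper556 (`HEN`) and helper616, and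
the pieces of `NonTameDefinable`.
-/

set_option autoImplicit false

namespace Pool.Agent.Results.MP_3554b5_lc.PositiveResidueCharacteristic

open Pool.Agent.W882.Nip3 Pool.Agent.N616.NH Pool.Agent.Results.MP_3554b5_lc.UnramifiedNorms NNReal

/-- Let `K` be a field which is NIP (the hypothesis of `S14569`), or `NIP_n` for some `n`.

(1) Let `p` be a prime number and `O` a valuation ring of `K` whose residue field has characteristic
`p`. Suppose that `O` is non-tame (up to some `D`) or definable. Then the residue field of `O` has no
Artin-Schreier extension, and is algebraically closed if it is algebraic over the prime field, or it is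
finite and `O` is finitely ramified: for some `N` the `N`-th power of every nonunit of `O` is
divisible by `p` in `O`.

(2) Suppose that `K` is an algebraic extension of the field of rational numbers, and let `v` be a
valuation of `K` with real values which is not tame up to some `D`. Then for some prime number `p`
with `v p < 1` the residue field of `v` is finite, and `v t ^ N ≤ v p` for some `N` and all `t` with
`v t < 1`. -/
theorem result (K : Type) [Field K] [FirstOrder.Ring.CompatibleRing K]
    (hK : NIPField K ∨ ∃ n, NIPnField n K) :
    (∀ (p : ℕ) (O : ValuationSubring K), p.Prime → CharP (IsLocalRing.ResidueField O) p →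
      ((∃ D, NT' D O) ∨ Dfb O) →
      ((∀ a : IsLocalRing.ResidueField O, ∃ y, y ^ p - y = a) ∧
        ((∀ a : IsLocalRing.ResidueField O, ∃ m : ℕ, 0 < m ∧ a ^ p ^ m = a) →
          IsAlgClosed (IsLocalRing.ResidueField O))) ∨
      (Finite (IsLocalRing.ResidueField O) ∧
        ∃ N : ℕ, ∀ t : K, O.valuation t < 1 → ∃ z ∈ O, t ^ N = z * p)) ∧
    ∀ (_ : Algebra ℚ K) (_ : Algebra.IsAlgebraic ℚ K) (v : Valuation K ℝ≥0) (D : ℕ),
      ¬ (ofValuation v).TameUpTo D →
      ∃ p : ℕ, p.Prime ∧ v (p : K) < 1 ∧ Finite (IsLocalRing.ResidueField v.valuationSubring) ∧
        ∃ N : ℕ, ∀ t : K, v t < 1 → v t ^ N ≤ v (p : K) := by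
  have hB := BND' PL N1 N2 N3
  obtain ⟨n, hn⟩ : ∃ n, NIPnField n K := by
    rcases hK with h | h
    · exact ⟨1, nip_one h⟩
    · exact h
  have hK' : NIPField K ∨ (∃ n, NIPnField n K) ∨ NTP2Field K := Or.inr (Or.inl ⟨n, hn⟩)
  refine ⟨fun p O hp hch hO => ?_, fun _ _ v D hv => ?_⟩
  · have hD : Dfb O := by
      rcases hO with ⟨D, h⟩ | h
      · exact dfb_of_nt' hB K hK' h
      · exact h
    exact res_main K n hn O hD p hp
  · refine alg_rat K v D hv fun p hp hch => ?_
    have hNT := vp' K (ofValuation v) D hv
    rw [vring_ofValuation] at hNT
    rcases res_main K n hn v.valuationSubring (dfb_of_nt' hB K hK' hNT) p hp with h | h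
    · exact Or.inl h.2
    · exact Or.inr h

end Pool.Agent.Results.MP_3554b5_lc.PositiveResidueCharacteristic
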